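import Pool.Agent.Helper44.BB.Stmts

set_option autoImplicit false

/-! # Numbers with a large smooth part -/

namespace Pool.Agent.Helper35.BB

open Finset Pool.Agent.Helper44.BB

theorem smp_mem_pr {z : ℝ} {p : ℕ} (hp : p.Prime) (h : (p : ℝ) ≤ z) : p ∈ pr z := by
  unfold pr
  rw [mem_filter, mem_range, Nat.lt_succ_iff]
  exact ⟨Nat.le_floor h, hp⟩

theorem smp_pr_le {z : ℝ} (hz : 0 ≤ z) {p : ℕ} (hp : p ∈ pr z) : p.Prime ∧ (p : ℝ) ≤ z := by
  unfold pr at hp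
  rw [mem_filter, mem_range, Nat.lt_succ_iff] at hp
  exact ⟨hp.2, (Nat.cast_le.2 hp.1).trans (Nat.floor_le hz)⟩

theorem smp_sum_pr {z : ℝ} (hz : 1 ≤ z) : ∑ p ∈ pr z, 1 / (p : ℝ) ≤ 1 + Real.log z := by
  refine le_trans ?_ (harmonic_floor_le_one_add_log z hz)
  rw [harmonic_eq_sum_Icc]
  push_cast
  have h : pr z ⊆ Icc 1 ⌊z⌋₊ := by
    intro p hp
    unfold pr at hp
    rw [mem_filter, mem_range, Nat.lt_succ_iff] at hp
    exact mem_Icc.2 ⟨hp.2.one_lt.le, hp.1⟩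
  refine le_trans (sum_le_sum_of_subset_of_nonneg h fun _ _ _ => by positivity) ?_
  exact (sum_congr rfl fun i _ => by rw [one_div]).le

theorem smp_count {B : ℝ} (hB : 0 ≤ B) (m : ℕ) (hm : 0 < m) (S : Finset ℕ)
    (hS : ∀ b ∈ S, 0 < b ∧ (b : ℝ) ≤ B ∧ m ∣ b) : (S.card : ℝ) ≤ B / m := by
  have hm0 : (0 : ℝ) < m := Nat.cast_pos.2 hm
  have h1 : S.card ≤ (Icc 1 ⌊B / m⌋₊).card := by
    refine card_le_card_of_injOn (fun b => b / m) ?_ ?_
    · intro b hb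
      obtain ⟨h0, h1, h2⟩ := hS b hb
      obtain ⟨c, rfl⟩ := h2
      have hc : 0 < c := Nat.pos_of_ne_zero (by rintro rfl; simp at h0)
      have e : m * c / m = c := Nat.mul_div_cancel_left c hm
      simp only [coe_Icc, Set.mem_Icc]
      rw [e]
      refine ⟨hc, Nat.le_floor ?_⟩
      rw [le_div_iff₀ hm0]
      push_cast at h1
      linarith [mul_comm (m : ℝ) c]
    · intro b hb b' hb' he
      obtain ⟨_, _, h2⟩ := hS b hb
      obtain ⟨_, _, h2'⟩ := hS b' hb'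
      have he' : b / m = b' / m := he
      rw [← Nat.div_mul_cancel h2, ← Nat.div_mul_cancel h2', he']
  rw [Nat.card_Icc, Nat.add_sub_cancel] at h1
  exact (Nat.cast_le.2 h1).trans (Nat.floor_le (div_nonneg hB hm0.le))

theorem smp_weight {P Y d : ℝ} (hP : Y < P) (hY : 0 < Y) (hd : 0 ≤ d) :
    1 / P ≤ P ^ (d - 1) * Y ^ (-d) := by
  have hP0 : 0 < P := hY.trans hP
  have h1 : P ^ (d - 1) = P ^ d / P := by rw [Real.rpow_sub hP0, Real.rpow_one]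
  have h2 : Y ^ (-d) = 1 / Y ^ d := by rw [Real.rpow_neg hY.le, one_div]
  have hYd : 0 < Y ^ d := Real.rpow_pos_of_pos hY d
  have h3 : Y ^ d ≤ P ^ d := Real.rpow_le_rpow hY.le hP.le hd
  rw [h1, h2, div_mul_div_comm, mul_one, div_le_div_iff₀ hP0 (mul_pos hP0 hYd)]
  nlinarith [mul_le_mul_of_nonneg_left h3 hP0.le]

theorem st_SMP (hRK : ST_RK) : ST_SMP := by
  intro B Y z A hB hY hz hA
  have he : (1 : ℝ) < Real.exp 1 := Real.one_lt_exp_iff.2 one_pos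
  have hz1 : 1 < z := he.trans_le hz
  have hz0 : 0 ≤ z := by linarith
  have hlz : 0 < Real.log z := Real.log_pos hz1
  set d : ℝ := 1 / Real.log z with hd
  have hd0 : 0 ≤ d := by positivity
  classical
  set F : Finset (Finset ℕ) := (pr z).powerset.filter (fun T => Y < ((∏ p ∈ T, p : ℕ) : ℝ)) with hF
  have hFpos : ∀ T ∈ F, 0 < ∏ p ∈ T, p := by
    intro T hT
    rw [hF, mem_filter, mem_powerset] at hT
    exact prod_pos fun p hp => (smp_pr_le hz0 (hT.1 hp)).1.pos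
  have hcov : A ⊆ F.biUnion (fun T => A.filter (fun b => (∏ p ∈ T, p) ∣ b)) := by
    intro b hb
    rw [mem_biUnion]
    refine ⟨b.primeFactors.filter (fun q : ℕ => (q : ℝ) ≤ z), ?_, ?_⟩
    · rw [hF, mem_filter, mem_powerset]
      refine ⟨?_, (hA b hb).2.2⟩
      intro q hq
      exact smp_mem_pr (Nat.prime_of_mem_primeFactors (mem_filter.1 hq).1) (mem_filter.1 hq).2
    · rw [mem_filter]
      exact ⟨hb, sp_dvd z b⟩
  have h1 : (A.card : ℝ) ≤ ∑ T ∈ F, B / ((∏ p ∈ T, p : ℕ) : ℝ) := by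
    have h2 : A.card ≤ ∑ T ∈ F, (A.filter (fun b => (∏ p ∈ T, p) ∣ b)).card :=
      (card_le_card hcov).trans card_biUnion_le
    refine (Nat.cast_le.2 h2).trans ?_
    rw [Nat.cast_sum]
    refine sum_le_sum fun T hT => smp_count hB _ (hFpos T hT) _ ?_
    intro b hb
    rw [mem_filter] at hb
    exact ⟨(hA b hb.1).1, (hA b hb.1).2.1, hb.2⟩
  have h2 : ∑ T ∈ F, B / ((∏ p ∈ T, p : ℕ) : ℝ) ≤
      ∑ T ∈ F, B * Y ^ (-d) * ((∏ p ∈ T, p : ℕ) : ℝ) ^ (d - 1) := by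
    refine sum_le_sum fun T hT => ?_
    have hT' : Y < ((∏ p ∈ T, p : ℕ) : ℝ) := by
      rw [hF, mem_filter] at hT
      exact hT.2
    have := mul_le_mul_of_nonneg_left (smp_weight hT' hY hd0) hB
    calc B / ((∏ p ∈ T, p : ℕ) : ℝ) = B * (1 / ((∏ p ∈ T, p : ℕ) : ℝ)) := by ring
      _ ≤ B * (((∏ p ∈ T, p : ℕ) : ℝ) ^ (d - 1) * Y ^ (-d)) := this
      _ = _ := by ring
  have h3 : ∑ T ∈ F, ((∏ p ∈ T, p : ℕ) : ℝ) ^ (d - 1) ≤
      Real.exp (Real.exp 1 * ∑ p ∈ pr z, 1 / (p : ℝ)) := by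
    refine le_trans ?_ (hRK (pr z) z (fun p hp => smp_pr_le hz0 hp) hz1)
    exact sum_le_sum_of_subset_of_nonneg (filter_subset _ _)
      fun T _ _ => Real.rpow_nonneg (Nat.cast_nonneg _) _
  have h4 : Y ^ (-d) = Real.exp (-(Real.log Y / Real.log z)) := by
    rw [Real.rpow_def_of_pos hY, hd]
    congr 1
    ring
  have h5 : Real.exp (Real.exp 1 * ∑ p ∈ pr z, 1 / (p : ℝ)) ≤
      Real.exp (Real.exp 1 * (1 + Real.log z)) :=
    Real.exp_le_exp.2 (mul_le_mul_of_nonneg_left (smp_sum_pr hz1.le) (Real.exp_pos 1).le)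
  calc (A.card : ℝ) ≤ ∑ T ∈ F, B * Y ^ (-d) * ((∏ p ∈ T, p : ℕ) : ℝ) ^ (d - 1) := h1.trans h2
    _ = B * Y ^ (-d) * ∑ T ∈ F, ((∏ p ∈ T, p : ℕ) : ℝ) ^ (d - 1) := by rw [← mul_sum]
    _ ≤ B * Y ^ (-d) * Real.exp (Real.exp 1 * (1 + Real.log z)) :=
        mul_le_mul_of_nonneg_left (h3.trans h5) (mul_nonneg hB (Real.rpow_nonneg hY.le _))
    _ = B * Real.exp (-(Real.log Y / Real.log z) + Real.exp 1 * (1 + Real.log z)) := by
        rw [h4, Real.exp_add]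
        ring

end Pool.Agent.Helper35.BB
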